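import Mathlib
import Pool.Graph.R_seed8.H188R3.TensorDefs
import Pool.Graph.R_seed8.H308R2.ZS.Defs
import Pool.Graph.R_seed8.W658.ZS.Nuc5
import Pool.Agent.KS6_38.ZS38.Main

/-!
# MP_37a859_an: simple purely infinite `𝒵`-stable algebras with a trace on the central sequences

For every infinite cardinal `κ` and every simple unital nuclear C*-algebra `Z` with a tracial state
and density character at most `κ` (for example the Jiang–Su algebra) there is a unital simple
purely infinite C*-algebra `B` of density character `κ` with `B ⊗ Z ≅ B`, which contains `Z`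
centrally, and which has a state `φ` and two unitaries `u`, `v` with
`|φ(xy) - φ(yx)| ≤ 200 δ²` whenever the commutators of `x`, `y` with `u`, `v` have norm at most `δ`;
so `φ` induces a tracial state of the central sequence algebra of `B`.  Hence `B` is not isomorphic
to any C*-tensor product `A ⊗ O` when `O` has almost central pairs of isometries with orthogonal
ranges, such as `𝒪_∞`, and all `𝒪_∞`-stable algebras.

The algebra is the one of the library proof (`Pool.Graph.R_seed8.W658.ZS`), over a free group of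
rank `κ`.
-/

set_option autoImplicit false

open scoped Kronecker Cardinal

namespace Pool.Agent.Results.MP_37a859_an.TracialCentralSequences

open Pool.Agent.H188R3
open Pool.Agent.KS6_38.ZS38 (HasDensity CentralIsometries TracialOnCentral CentrallyContains)

/-- The function `F : [0,1] → M_p ⊗ M_q` is in the dimension drop algebra `Z_{p,q}`: it is
continuous, `F(0) ∈ M_p ⊗ 1` and `F(1) ∈ 1 ⊗ M_q`. -/
def InDimDrop (p q : ℕ) (F : unitInterval → Matrix (Fin p × Fin q) (Fin p × Fin q) ℂ) : Prop :=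
  Continuous F ∧
    (∃ x : Matrix (Fin p) (Fin p) ℂ, F 0 = x ⊗ₖ (1 : Matrix (Fin q) (Fin q) ℂ)) ∧
    ∃ y : Matrix (Fin q) (Fin q) ℂ, F 1 = (1 : Matrix (Fin p) (Fin p) ℂ) ⊗ₖ y

/-- `D` is isomorphic to the dimension drop algebra `Z_{p,q}`: some `φ` is a bijection from `D` to
the set of the elements of `Z_{p,q}` and preserves sums, products, multiples and adjoints (which are
pointwise in `Z_{p,q}`). -/
def IsoDimDrop {Z : Type} [CStarAlgebra Z] (D : StarSubalgebra ℂ Z) (p q : ℕ) : Prop :=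
  ∃ φ : Z → unitInterval → Matrix (Fin p × Fin q) (Fin p × Fin q) ℂ,
    Set.BijOn φ (D : Set Z) {F | InDimDrop p q F} ∧
    ∀ a ∈ D, ∀ b ∈ D, ∀ t, φ (a + b) t = φ a t + φ b t ∧ φ (a * b) t = φ a t * φ b t ∧
      φ (star a) t = (φ a t).conjTranspose ∧ ∀ c : ℂ, φ (c • a) t = c • φ a t

/-- `τ` is a tracial state. -/
structure IsTracialState {Z : Type} [CStarAlgebra Z] (τ : Z →ₗ[ℂ] ℂ) : Prop where
  one : τ 1 = 1
  comm : ∀ x y, τ (x * y) = τ (y * x)
  pos : ∀ x, 0 ≤ (τ (star x * x)).re ∧ (τ (star x * x)).im = 0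

/-- `B` is simple: `B ≠ 0` and every closed two-sided ideal is `0` or `B`. -/
def Simple (B : Type) [CStarAlgebra B] : Prop :=
  Nontrivial B ∧ ∀ I : TwoSidedIdeal B, IsClosed (I : Set B) → I = ⊥ ∨ I = ⊤

/-- `Z` is the Jiang–Su algebra: a simple unital C*-algebra with a unique tracial state which is
the closure of an increasing union of subalgebras isomorphic to prime dimension drop algebras. -/
structure IsJiangSu (Z : Type) [CStarAlgebra Z] : Prop where
  simple : Simple Z
  trace : ∃! τ : Z →ₗ[ℂ] ℂ, IsTracialState τ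
  lim : ∃ (n : ℕ → ℕ) (D : ℕ → StarSubalgebra ℂ Z), Monotone D ∧
    Filter.Tendsto n Filter.atTop Filter.atTop ∧
    (∀ k, IsClosed (D k : Set Z) ∧ IsoDimDrop (D k) (n k + 1) (n k + 2)) ∧ Dense (⋃ k, (D k : Set Z))

/-- `p` is an infinite projection: it is Murray–von Neumann equivalent to a proper subprojection
`w w*` of itself. -/
def InfiniteProjection {B : Type} [CStarAlgebra B] (p : B) : Prop :=
  star p = p ∧ p * p = p ∧
    ∃ w : B, star w * w = p ∧ p * (w * star w) = w * star w ∧ w * star w ≠ p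

/-- `H` is a hereditary C*-subalgebra of `B`: a closed `*`-subalgebra such that `0 ≤ y ≤ x` and
`x ∈ H` imply `y ∈ H`; here `y = c* c` and `x - y = d* d`. -/
def Hereditary {B : Type} [CStarAlgebra B] (H : NonUnitalStarSubalgebra ℂ B) : Prop :=
  IsClosed (H : Set B) ∧ ∀ c d : B, star c * c + star d * d ∈ H → star c * c ∈ H

/-- Pure infiniteness in the sense of Cuntz: every nonzero hereditary C*-subalgebra contains an
infinite projection. -/
def PurelyInfinite (B : Type) [CStarAlgebra B] : Prop :=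
  ∀ H : NonUnitalStarSubalgebra ℂ B, Hereditary H → (∃ b ∈ H, b ≠ 0) →
    ∃ p ∈ H, InfiniteProjection p

/-- `O` is the Cuntz algebra `𝒪_∞`: a nonzero unital C*-algebra generated by a sequence of
isometries with mutually orthogonal ranges. -/
def IsCuntzInfinity (O : Type) [CStarAlgebra O] : Prop :=
  Nontrivial O ∧ ∃ s : ℕ → O, (∀ i, star (s i) * s i = 1) ∧ (∀ i j, i ≠ j → star (s i) * s j = 0) ∧
    (StarAlgebra.adjoin ℂ (Set.range s)).topologicalClosure = ⊤

/-- `B` absorbs `Z`: `B ⊗ Z ≅ B`, where `B ⊗ Z` is the minimal C*-tensor product. -/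
def Absorbs (B Z : Type) [CStarAlgebra B] [CStarAlgebra Z] : Prop :=
  ∃ (T : Type) (_ : CStarAlgebra T) (f : B →⋆ₐ[ℂ] T) (g : Z →⋆ₐ[ℂ] T),
    IsMinTensor f g ∧ Nonempty (T ≃⋆ₐ[ℂ] B)

lemma dimDrop_of {Z : Type} [CStarAlgebra Z] {D : StarSubalgebra ℂ Z} {n : ℕ}
    (h : IsoDimDrop D (n + 1) (n + 2)) :
    Nonempty (Pool.Agent.H308R2.ZS.dimDrop n ≃⋆ₐ[ℂ] D) := by
  obtain ⟨φ, ⟨h1, h2, h3⟩, h4⟩ := h
  have key : ∀ a : D, ∃ F : Pool.Agent.H308R2.ZS.dimDrop n, ∀ t, F.1 t = φ a t := by
    intro a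
    obtain ⟨hc, hx, hy⟩ := h1 a.2
    exact ⟨⟨⟨φ a, hc⟩, hx, hy⟩, fun t => rfl⟩
  choose G hG using key
  have hadd : ∀ a b : D, G (a + b) = G a + G b := by
    intro a b
    apply Subtype.ext
    ext1 t
    refine (hG (a + b) t).trans (((h4 a a.2 b b.2 t).1).trans ?_)
    rw [← hG a t, ← hG b t]
    rfl
  have hmul : ∀ a b : D, G (a * b) = G a * G b := by
    intro a b
    apply Subtype.ext
    ext1 t
    refine (hG (a * b) t).trans (((h4 a a.2 b b.2 t).2.1).trans ?_)
    rw [← hG a t, ← hG b t]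
    rfl
  have hstar : ∀ a : D, G (star a) = star (G a) := by
    intro a
    apply Subtype.ext
    ext1 t
    refine (hG (star a) t).trans (((h4 a a.2 a a.2 t).2.2.1).trans ?_)
    rw [← hG a t]
    rfl
  have hsmul : ∀ (c : ℂ) (a : D), G (c • a) = c • G a := by
    intro c a
    apply Subtype.ext
    ext1 t
    refine (hG (c • a) t).trans (((h4 a a.2 a a.2 t).2.2.2 c).trans ?_)
    rw [← hG a t]
    rfl
  have hinj : Function.Injective G := by
    intro a b hab
    apply Subtype.ext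
    apply h2 a.2 b.2
    funext t
    rw [← hG a t, ← hG b t, hab]
  have hsurj : Function.Surjective G := by
    intro F
    obtain ⟨a, ha, hF⟩ := h3 (show InDimDrop (n + 1) (n + 2) (fun t => F.1 t) from
      ⟨F.1.continuous, F.2.1, F.2.2⟩)
    refine ⟨⟨a, ha⟩, ?_⟩
    apply Subtype.ext
    ext1 t
    exact (hG ⟨a, ha⟩ t).trans (congrFun hF t)
  have e : D ≃⋆ₐ[ℂ] Pool.Agent.H308R2.ZS.dimDrop n :=
    { toEquiv := Equiv.ofBijective G ⟨hinj, hsurj⟩
      map_mul' := hmul
      map_add' := hadd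
      map_star' := hstar
      map_smul' := hsmul }
  exact ⟨e.symm⟩

lemma jiangSu_of {Z : Type} [CStarAlgebra Z] (h : IsJiangSu Z) :
    ∃ τ : Z →ₗ[ℂ] ℂ, Pool.Agent.H308R2.ZS.IsJiangSu Z τ := by
  obtain ⟨τ, hτ, hu⟩ := h.trace
  refine ⟨τ, ?_, ⟨hτ.one, hτ.comm, hτ.pos⟩, ?_, ?_⟩
  · intro I hI hm
    have hm1 : ∀ x ∈ I, ∀ y, y * x ∈ I := fun x hx y => by simpa using hm x hx y 1
    have hm2 : ∀ x ∈ I, ∀ y, x * y ∈ I := fun x hx y => by simpa using hm x hx 1 y
    let J : TwoSidedIdeal Z := TwoSidedIdeal.mk' (I : Set Z) I.zero_mem (fun a b => I.add_mem a b)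
      (fun a => I.neg_mem a) (fun {x y} hy => hm1 y hy x) (fun {x y} hx => hm2 x hx y)
    have hJ : (J : Set Z) = (I : Set Z) := by
      ext x
      exact TwoSidedIdeal.mem_mk' _ _ _ _ _ _ _
    have hJc : IsClosed (J : Set Z) := hJ ▸ hI
    rcases h.simple.2 J hJc with h0 | h1
    · left
      refine SetLike.coe_injective ?_
      rw [← hJ, h0]
      ext x
      simp
    · right
      refine SetLike.coe_injective ?_
      rw [← hJ, h1]
      ext x
      simp
  · intro τ' h'
    exact hu τ' ⟨h'.one, h'.comm, h'.pos⟩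
  · obtain ⟨n, D, h1, h2, h3, h4⟩ := h.lim
    exact ⟨n, D, h1, h2, fun k => (h3 k).1, fun k => dimDrop_of (h3 k).2, h4⟩

/-- `Z` is nuclear: for every unital C*-algebra `A` all C*-norms on the algebraic tensor product
`A ⊗ Z` coincide. -/
def Nuclear (Z : Type) [CStarAlgebra Z] : Prop :=
  ∀ (A D E : Type) [CStarAlgebra A] [CStarAlgebra D] [CStarAlgebra E] (f : A →⋆ₐ[ℂ] D)
    (g : Z →⋆ₐ[ℂ] D) (f' : A →⋆ₐ[ℂ] E) (g' : Z →⋆ₐ[ℂ] E), IsCStarNormed f g →
    IsCStarNormed f' g' → ∀ x, ‖prodMap f g x‖ = ‖prodMap f' g' x‖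

/-- `T` is generated by commuting copies of `A` and `O`; every C*-tensor product `T` of `A` and `O`
(completion of the algebraic tensor product in some C*-norm) is of this kind. -/
def IsTensor (A O T : Type) [CStarAlgebra A] [CStarAlgebra O] [CStarAlgebra T] : Prop :=
  ∃ (f : A →⋆ₐ[ℂ] T) (g : O →⋆ₐ[ℂ] T), (∀ a b, f a * g b = g b * f a) ∧ DenseRange (prodMap f g)

/-- (1) `𝒪_∞` has almost central pairs of isometries with orthogonal ranges, and so has every
C*-tensor product with such an algebra.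

(2) Let `κ` be an infinite cardinal, and let `Z` be the Jiang–Su algebra, or any simple unital
nuclear C*-algebra with a tracial state and with a dense subset of cardinality at most `κ`.  There
is a unital simple purely infinite C*-algebra `B` of density character `κ` such that `B ⊗ Z ≅ B`,
`Z` embeds into `B` asymptotically centrally, some state of `B` is tracial on central sequences (with
an estimate in terms of the commutators with two fixed unitaries), `B ⊗ 𝒪_∞ ≇ B`, and `B` is not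
isomorphic to any C*-tensor product of any C*-algebra `A` with an algebra `O` which has almost
central pairs of isometries with orthogonal ranges. -/
theorem result :
    (∀ (O : Type) [CStarAlgebra O], IsCuntzInfinity O → CentralIsometries O) ∧
    (∀ (A O T : Type) [CStarAlgebra A] [CStarAlgebra O] [CStarAlgebra T],
      CentralIsometries O → IsTensor A O T → CentralIsometries T) ∧
    ∀ κ : Cardinal.{0}, ℵ₀ ≤ κ → ∀ (Z : Type) [CStarAlgebra Z],
      (IsJiangSu Z ∨ (Simple Z ∧ Nuclear Z ∧ (∃ τ : Z →ₗ[ℂ] ℂ, IsTracialState τ) ∧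
        ∃ D : Set Z, Dense D ∧ #D ≤ κ)) →
      ∃ (B : Type) (_ : CStarAlgebra B), HasDensity B κ ∧ Simple B ∧ PurelyInfinite B ∧
        Absorbs B Z ∧ CentrallyContains B Z ∧ TracialOnCentral B ∧
        (∀ (O : Type) [CStarAlgebra O], IsCuntzInfinity O → ¬ Absorbs B O) ∧
        ∀ (O : Type) [CStarAlgebra O], CentralIsometries O →
          ∀ (A : Type) [CStarAlgebra A], ¬ IsTensor A O B := by
  have h1 : ∀ (O : Type) [CStarAlgebra O], IsCuntzInfinity O → CentralIsometries O := by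
    intro O _ h
    exact Pool.Agent.KS6_38.ZS38.central_cuntz h
  have h2 : ∀ (A O T : Type) [CStarAlgebra A] [CStarAlgebra O] [CStarAlgebra T],
      CentralIsometries O → IsTensor A O T → CentralIsometries T := by
    rintro A O T _ _ _ h ⟨f, g, hc, hd⟩
    exact h.tensor f g hc hd
  refine ⟨h1, h2, ?_⟩
  intro κ hκ Z _ hZ
  have h3 : ∃ τ : Z →ₗ[ℂ] ℂ, Pool.Agent.H327R4.Pure.SimpleC Z ∧ Pool.Agent.W658.ZS.Nuclear Z ∧
      Pool.Agent.W658.ZS.IsTracialState τ ∧ ∃ D : Set Z, Dense D ∧ #D ≤ κ := by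
    rcases hZ with hJ | ⟨hs, hn, ⟨τ, hτ⟩, hD⟩
    · obtain ⟨τ, h⟩ := jiangSu_of hJ
      refine ⟨τ, Pool.Agent.W658.ZS.simple_jiangSu Z τ h, Pool.Agent.W658.ZS.nuclear_jiangSu Z τ h,
        Pool.Agent.W658.ZS.tracial_jiangSu Z τ h, ?_⟩
      have hsep := Pool.Agent.W658.ZS.separable_jiangSu Z τ h
      obtain ⟨D, hDc, hD⟩ := TopologicalSpace.exists_countable_dense Z
      exact ⟨D, hD, (Cardinal.le_aleph0_iff_set_countable.2 hDc).trans hκ⟩
    · refine ⟨τ, hs, hn, ⟨hτ.one, hτ.comm, fun x => ?_⟩, hD⟩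
      obtain ⟨ha, hb⟩ := hτ.pos x
      rw [Complex.le_def]
      exact ⟨by simpa using ha, by simpa using hb.symm⟩
  obtain ⟨τ, hs, hn, hτ, D, hD, hDκ⟩ := h3
  obtain ⟨B, iB, g1, g2, g3, ⟨f, g, hfg⟩, g5, g6⟩ :=
    Pool.Agent.KS6_38.ZS38.main κ hκ Z hs hn τ hτ D hD hDκ
  refine ⟨B, iB, g1, g2, g3, ⟨B, iB, f, g, hfg, ⟨StarAlgEquiv.refl ℂ B⟩⟩, g5, g6, ?_, ?_⟩
  · rintro O _ hO ⟨T, _, f, g, hfg, ⟨e⟩⟩
    exact g6.not_central (((h1 O hO).tensor f g hfg.normed.commute hfg.dense).equiv e.symm)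
  · intro O _ hO A _ hT
    exact g6.not_central (h2 A O B hO hT)

end Pool.Agent.Results.MP_37a859_an.TracialCentralSequences
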